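import Mathlib
import Pool.Agent.Work.MP_661cb5_co.GenMain

set_option autoImplicit false

namespace Pool.Agent.Results.MP_661cb5_co.CoefficientsOneAndK

open Pool.Agent.Work.MP_661cb5_co

/-- For every natural number `k` and every finite colouring of the positive integers there is a
sequence `y 0, y 1, …` of positive integers such that all sums
`a 0 * y 0 + a 1 * y 1 + … + a n * y n` (`n = 0, 1, 2, …`) with coefficients `a i ∈ {1, k}` and
`a 0 = a n = 1` have the same colour.  The case `k = 2` is the question. -/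
theorem result (k : ℕ) {κ : Type*} [Finite κ] (c : ℕ+ → κ) :
    ∃ (y : ℕ → ℕ+) (col : κ), ∀ (n : ℕ) (a : Fin (n + 1) → ℕ),
      (∀ i, a i = 1 ∨ a i = k) → a 0 = 1 → a (Fin.last n) = 1 →
      ∀ s : ℕ+, (s : ℕ) = ∑ i, a i * (y i : ℕ) → c s = col := by
  obtain ⟨r, ⟨e⟩⟩ := Finite.exists_equiv_fin κ
  -- a parameter different from one
  obtain ⟨k', hk', hkk⟩ : ∃ k' : ℕ, k' ≠ 1 ∧ ∀ x : ℕ, (x = 1 ∨ x = k) → (x = 1 ∨ x = k') := by
    by_cases h : k = 1
    · exact ⟨2, by norm_num, fun x hx => Or.inl (by rcases hx with h1 | h1 <;> omega)⟩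
    · exact ⟨k, h, fun x hx => hx⟩
  obtain ⟨y, hy, col, hcol⟩ := General.main k' hk' r (fun n => e (c n.toPNat'))
  refine ⟨fun n => ⟨y n, hy n⟩, e.symm col, ?_⟩
  intro n a ha h0 hl s hs
  have h1 := hcol (n + 1) (by omega) (fun i => if h : i < n + 1 then a ⟨i, h⟩ else 1) ?_ ?_ ?_
  · have h2 : ∑ i ∈ Finset.range (n + 1), (if h : i < n + 1 then a ⟨i, h⟩ else 1) * y i = s := by
      rw [hs, Finset.sum_range]
      refine Finset.sum_congr rfl fun i _ => ?_
      rw [dif_pos i.2]
      rfl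
    rw [h2, PNat.coe_toPNat'] at h1
    rw [← h1, Equiv.symm_apply_apply]
  · intro i
    by_cases hi : i < n + 1
    · rw [dif_pos hi]
      exact hkk _ (ha _)
    · rw [dif_neg hi]
      exact Or.inl rfl
  · rw [dif_pos (by omega)]
    exact h0
  · rw [dif_pos (by omega)]
    exact hl

end Pool.Agent.Results.MP_661cb5_co.CoefficientsOneAndK
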